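import Mathlib
import Pool.Graph.R_seed8.H320R2.CT.Main

set_option autoImplicit false

namespace Pool.Agent.Results.MP_3e81b4_pr.ThresholdWindow

open Filter Pool.Agent.H999R2.KSat Pool.Agent.H320R2.CT Pool.Agent.H545R3.CT

/-- `prob n k M`: the probability that the uniform random graph `G_{n,M}` on `n` labelled vertices
with exactly `M` edges is `k`-colourable (`0` if there is no such graph). -/
noncomputable def prob (n k M : ℕ) : ℝ :=
  (Nat.card {G : SimpleGraph (Fin n) // G.edgeSet.ncard = M ∧ G.Colorable k} : ℝ) /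
    (Nat.card {G : SimpleGraph (Fin n) // G.edgeSet.ncard = M} : ℝ)

theorem prob_eq (n k M : ℕ) : prob n k M = (BB n k M : ℝ) / AA n M := ratio_eq n k M

theorem prob_nonneg (n k M : ℕ) : 0 ≤ prob n k M := by unfold prob; positivity

/-- the window inequality for the uniform random graph -/
theorem window (k : ℕ) (hk : 3 ≤ k) (Λ : ℝ) : ∃ C : ℝ, 0 < C ∧ ∃ n₀ : ℕ, ∀ n M s : ℕ, n₀ ≤ n →
    1 ≤ s → s ≤ n → (M : ℝ) + s ≤ Λ * n →
    (1 - prob n k M) * prob n k (M + s) ^ 2 ≤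
      C * (n * (s : ℝ) ^ (-(9 / 8) : ℝ) + s / n) := by
  obtain ⟨C, hC, h⟩ := sharpC k hk Λ
  set L : ℝ := max Λ 0 with hL
  obtain ⟨n0, hn0⟩ := AA_lower L (le_max_right _ _)
  set K : ℝ := Real.exp (8 * L ^ 2) with hK
  have hKpos : 0 < K := Real.exp_pos _
  refine ⟨K ^ 3 * C, by positivity, max n0 2, fun n M s hn hs1 hsn hm => ?_⟩
  have ha : n0 ≤ n := le_trans (le_max_left _ _) hn
  have hb : 2 ≤ n := le_trans (le_max_right _ _) hn
  have hn' : (0 : ℝ) ≤ n := Nat.cast_nonneg n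
  have hs' : (0 : ℝ) ≤ s := Nat.cast_nonneg s
  have hΛL : Λ * (n : ℝ) ≤ L * n := mul_le_mul_of_nonneg_right (le_max_left _ _) hn'
  have hM1 : (M : ℝ) ≤ L * n := by linarith
  have hM2 : ((M + s : ℕ) : ℝ) ≤ L * n := by push_cast; linarith
  have g1 := ratio_ge L n k M hb (hn0 n M ha hM1)
  have g0 := ratio_le_one L n k M hb (hn0 n M ha hM1)
  have g2 := ratio_le L n k (M + s) hb (hn0 n (M + s) ha hM2)
  rw [← prob_eq, ← hK] at g1 g2
  rw [← prob_eq] at g0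
  have p1 := pc_nonneg' n k (M + s)
  have p2 := pc_le_one' n k M
  have p3 := prob_nonneg n k (M + s)
  have hmain := h n M s hb hs1 hsn hm
  have h1 : prob n k (M + s) ^ 2 ≤ (K * pc n k (M + s)) ^ 2 := pow_le_pow_left₀ p3 g2 2
  have h2 : 1 - prob n k M ≤ K * (1 - pc n k M) := by linarith
  calc (1 - prob n k M) * prob n k (M + s) ^ 2
      ≤ (K * (1 - pc n k M)) * (K * pc n k (M + s)) ^ 2 :=
        mul_le_mul h2 h1 (by positivity) (mul_nonneg hKpos.le (by linarith))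
    _ = K ^ 3 * ((1 - pc n k M) * pc n k (M + s) ^ 2) := by ring
    _ ≤ K ^ 3 * (C * (n * (s : ℝ) ^ (-(9 / 8) : ℝ) + s / n)) := by gcongr
    _ = _ := by ring

/-- The `k`-colourability threshold of `G_{n,M}` exists for every `k ≥ 3`, and its window has
polynomially smaller order: it is at most `n ^ γ` edges for every `γ > 8/9`. -/
theorem result (k : ℕ) (hk : 3 ≤ k) :
    ∃ c : ℝ,
      (∀ ε : ℝ, 0 < ε →
        Tendsto (fun n : ℕ => prob n k ⌊(c - ε) * (n : ℝ)⌋₊) atTop (nhds 1) ∧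
        Tendsto (fun n : ℕ => prob n k ⌊(c + ε) * (n : ℝ)⌋₊) atTop (nhds 0)) ∧
      (∀ Λ : ℝ, ∃ C : ℝ, 0 < C ∧ ∃ n₀ : ℕ, ∀ n M s : ℕ, n₀ ≤ n →
        1 ≤ s → s ≤ n → (M : ℝ) + s ≤ Λ * n →
        (1 - prob n k M) * prob n k (M + s) ^ 2 ≤
          C * (n * (s : ℝ) ^ (-(9 / 8) : ℝ) + s / n)) ∧
      (∀ γ : ℝ, 8 / 9 < γ → γ < 1 → ∀ Λ ε : ℝ, 0 < ε → ∃ n₀ : ℕ, ∀ n M : ℕ, n₀ ≤ n →
        (M : ℝ) ≤ Λ * n → prob n k M ≤ 1 - ε → prob n k (M + ⌈(n : ℝ) ^ γ⌉₊) ≤ ε) := by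
  obtain ⟨c, hc⟩ := Pool.Agent.H320R2.CT.main k hk
  refine ⟨c, hc, window k hk, ?_⟩
  intro γ hγ hγ1 Λ ε hε
  obtain ⟨C, hC, n0, hw⟩ := window k hk (Λ + 1)
  -- the right-hand side with `s = ⌈n ^ γ⌉` tends to `0`
  have hlim : Tendsto (fun n : ℕ => C * ((n : ℝ) ^ (1 - 9 / 8 * γ) + 2 * (n : ℝ) ^ (γ - 1)))
      atTop (nhds 0) := by
    have h1 : Tendsto (fun n : ℕ => (n : ℝ) ^ (1 - 9 / 8 * γ)) atTop (nhds 0) := by
      have h := (tendsto_rpow_neg_atTop (show 0 < 9 / 8 * γ - 1 by linarith)).comp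
        (tendsto_natCast_atTop_atTop (R := ℝ))
      refine h.congr fun n => ?_
      show (n : ℝ) ^ (-(9 / 8 * γ - 1)) = _
      congr 1; ring
    have h2 : Tendsto (fun n : ℕ => (n : ℝ) ^ (γ - 1)) atTop (nhds 0) := by
      have h := (tendsto_rpow_neg_atTop (show 0 < 1 - γ by linarith)).comp
        (tendsto_natCast_atTop_atTop (R := ℝ))
      refine h.congr fun n => ?_
      show (n : ℝ) ^ (-(1 - γ)) = _
      congr 1; ring
    simpa using (h1.add (h2.const_mul 2)).const_mul C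
  have hev := hlim.eventually (gt_mem_nhds (show (0 : ℝ) < ε ^ 3 by positivity))
  have hgrow : ∀ᶠ n : ℕ in atTop, 2 * (n : ℝ) ^ (γ - 1) ≤ 1 := by
    have h2 : Tendsto (fun n : ℕ => 2 * (n : ℝ) ^ (γ - 1)) atTop (nhds 0) := by
      have h := (tendsto_rpow_neg_atTop (show 0 < 1 - γ by linarith)).comp
        (tendsto_natCast_atTop_atTop (R := ℝ))
      have h' : Tendsto (fun n : ℕ => (n : ℝ) ^ (γ - 1)) atTop (nhds 0) := by
        refine h.congr fun n => ?_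
        show (n : ℝ) ^ (-(1 - γ)) = _
        congr 1; ring
      simpa using h'.const_mul 2
    exact (h2.eventually (gt_mem_nhds one_pos)).mono fun n hn => hn.le
  obtain ⟨n1, hn1⟩ := (hev.and hgrow).exists_forall_of_atTop
  refine ⟨max (max n0 n1) 1, fun n M hn hM hp => ?_⟩
  have ha : n0 ≤ n := le_trans (le_trans (le_max_left _ _) (le_max_left _ _)) hn
  have hb : n1 ≤ n := le_trans (le_trans (le_max_right _ _) (le_max_left _ _)) hn
  have hc1 : 1 ≤ n := le_trans (le_max_right _ _) hn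
  obtain ⟨e1, e2⟩ := hn1 n hb
  have hnr : (1 : ℝ) ≤ n := by exact_mod_cast hc1
  have hn0' : (0 : ℝ) < n := by linarith
  have hx1 : (1 : ℝ) ≤ (n : ℝ) ^ γ := Real.one_le_rpow hnr (by linarith)
  set s : ℕ := ⌈(n : ℝ) ^ γ⌉₊ with hs
  have hs1 : (n : ℝ) ^ γ ≤ s := Nat.le_ceil _
  have hs2 : (s : ℝ) ≤ 2 * (n : ℝ) ^ γ := by
    have := (Nat.ceil_lt_add_one (show (0 : ℝ) ≤ (n : ℝ) ^ γ by linarith)).le
    linarith
  have hs3 : 1 ≤ s := by
    have : (1 : ℝ) ≤ s := hx1.trans hs1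
    exact_mod_cast this
  have hsplit : (n : ℝ) ^ γ = (n : ℝ) ^ (γ - 1) * n := by
    rw [← Real.rpow_add_one hn0'.ne']
    congr 1; ring
  have hsn : (s : ℝ) ≤ n := by
    rw [hsplit] at hs2
    nlinarith
  have hsn' : s ≤ n := by exact_mod_cast hsn
  have hmain := hw n M s ha hs3 hsn' (by nlinarith)
  have hb1 : (n : ℝ) * (s : ℝ) ^ (-(9 / 8) : ℝ) ≤ (n : ℝ) ^ (1 - 9 / 8 * γ) := by
    have h3 : (s : ℝ) ^ (-(9 / 8) : ℝ) ≤ ((n : ℝ) ^ γ) ^ (-(9 / 8) : ℝ) :=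
      Real.rpow_le_rpow_of_nonpos (by linarith) hs1 (by norm_num)
    calc (n : ℝ) * (s : ℝ) ^ (-(9 / 8) : ℝ) ≤ n * ((n : ℝ) ^ γ) ^ (-(9 / 8) : ℝ) := by gcongr
      _ = (n : ℝ) ^ (1 : ℝ) * (n : ℝ) ^ (γ * (-(9 / 8))) := by
          rw [Real.rpow_one, ← Real.rpow_mul hn0'.le]
      _ = (n : ℝ) ^ (1 - 9 / 8 * γ) := by
          rw [← Real.rpow_add hn0']
          congr 1; ring
  have hb2 : (s : ℝ) / n ≤ 2 * (n : ℝ) ^ (γ - 1) := by
    rw [div_le_iff₀ hn0', mul_assoc, ← hsplit]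
    exact hs2
  have hsmall : (1 - prob n k M) * prob n k (M + s) ^ 2 < ε ^ 3 := by
    refine lt_of_le_of_lt (hmain.trans ?_) e1
    gcongr
  by_contra hlt
  push Not at hlt
  have h5 : ε * ε ^ 2 ≤ (1 - prob n k M) * prob n k (M + s) ^ 2 :=
    mul_le_mul (by linarith) (pow_le_pow_left₀ hε.le hlt.le 2) (by positivity) (by linarith)
  nlinarith

end Pool.Agent.Results.MP_3e81b4_pr.ThresholdWindow
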